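import Mathlib

/-!
Helper lemmas for the counterexample to the representation of every integer `n > 1` as a sum of two
squares and two central binomial coefficients.
-/

set_option autoImplicit false

namespace Pool.Agent.Helper60.CentralBinom

/-- A prime `p` congruent to `3` mod `4` dividing `N` exactly to an odd power excludes `N` from the
sums of two squares. -/
theorem not_sum_of_exact {N p e : ℕ} (hp : p.Prime) (h4 : p % 4 = 3) (he : Odd e)
    (h1 : p ^ e ∣ N) (h2 : ¬ p ^ (e + 1) ∣ N) (x y : ℕ) : N ≠ x ^ 2 + y ^ 2 := by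
  intro h
  have hN : N ≠ 0 := by
    rintro rfl
    exact h2 (dvd_zero _)
  have key := (Nat.eq_sq_add_sq_iff (n := N)).1 ⟨x, y, h⟩
  have := Fact.mk hp
  have hpN : p ∣ N := by
    have : e ≠ 0 := by rintro rfl; simp at he
    exact (dvd_pow_self p this).trans h1
  have hval : padicValNat p N = e := by
    have h3 : e ≤ padicValNat p N := (padicValNat_dvd_iff_le hN).1 h1
    have h4' : ¬ (e + 1 ≤ padicValNat p N) := fun h5 => h2 ((padicValNat_dvd_iff_le hN).2 h5)
    omega
  have := key (q := p) (Nat.mem_primeFactors.2 ⟨hp, hpN, hN⟩) h4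
  rw [hval] at this
  exact (Nat.not_even_iff_odd.2 he) this

theorem half_sum {M : ℕ} (h : ∃ x y : ℕ, 2 * M = x ^ 2 + y ^ 2) : ∃ x y : ℕ, M = x ^ 2 + y ^ 2 := by
  rcases Nat.eq_zero_or_pos M with rfl | hM
  · exact ⟨0, 0, by simp⟩
  rw [Nat.eq_sq_add_sq_iff] at h ⊢
  intro q hq hq4
  have hqp : q.Prime := Nat.prime_of_mem_primeFactors hq
  have := Fact.mk hqp
  have h2M : 2 * M ≠ 0 := by positivity
  have hq' : q ∈ (2 * M).primeFactors := by
    rw [Nat.mem_primeFactors]
    exact ⟨hqp, (Nat.dvd_of_mem_primeFactors hq).mul_left 2, h2M⟩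
  have := h q hq' hq4
  rw [padicValNat.mul two_ne_zero hM.ne'] at this
  have h0 : padicValNat q 2 = 0 := by
    apply padicValNat.eq_zero_of_not_dvd
    intro hd
    have := (Nat.prime_dvd_prime_iff_eq hqp Nat.prime_two).1 hd
    subst this
    simp at hq4
  rwa [h0, zero_add] at this

theorem mod_four {N : ℕ} (h : N % 4 = 3) (x y : ℕ) : N ≠ x ^ 2 + y ^ 2 := by
  intro hN
  have hx : x ^ 2 % 4 = 0 ∨ x ^ 2 % 4 = 1 := by
    have : x % 4 < 4 := Nat.mod_lt _ (by norm_num)
    rw [Nat.pow_mod]
    interval_cases x % 4 <;> simp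
  have hy : y ^ 2 % 4 = 0 ∨ y ^ 2 % 4 = 1 := by
    have : y % 4 < 4 := Nat.mod_lt _ (by norm_num)
    rw [Nat.pow_mod]
    interval_cases y % 4 <;> simp
  omega

/-- `chkTwo N` : `N` is `3` mod `4`, `6` mod `8`, `12` mod `16` or `24` mod `32`. -/
def chkTwo (N : ℕ) : Bool :=
  (N % 4).beq 3 || (N % 8).beq 6 || (N % 16).beq 12 || (N % 32).beq 24

theorem chkTwo_spec {N : ℕ} (h : chkTwo N = true) (x y : ℕ) : N ≠ x ^ 2 + y ^ 2 := by
  unfold chkTwo at h
  simp only [Bool.or_eq_true, Nat.beq_eq] at h
  rcases h with ((h | h) | h) | h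
  · exact mod_four h x y
  · intro hN
    obtain ⟨M, hM⟩ : ∃ M, N = 2 * M := ⟨N / 2, by omega⟩
    obtain ⟨a, b, hab⟩ := half_sum (M := M) ⟨x, y, by rw [← hM]; exact hN⟩
    exact mod_four (N := M) (by omega) a b hab
  · intro hN
    obtain ⟨M, hM⟩ : ∃ M, N = 2 * (2 * M) := ⟨N / 4, by omega⟩
    obtain ⟨a, b, hab⟩ := half_sum (M := 2 * M) ⟨x, y, by rw [← hM]; exact hN⟩
    obtain ⟨a, b, hab⟩ := half_sum (M := M) ⟨a, b, hab⟩
    exact mod_four (N := M) (by omega) a b hab
  · intro hN
    obtain ⟨M, hM⟩ : ∃ M, N = 2 * (2 * (2 * M)) := ⟨N / 8, by omega⟩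
    obtain ⟨a, b, hab⟩ := half_sum (M := 2 * (2 * M)) ⟨x, y, by rw [← hM]; exact hN⟩
    obtain ⟨a, b, hab⟩ := half_sum (M := 2 * M) ⟨a, b, hab⟩
    obtain ⟨a, b, hab⟩ := half_sum (M := M) ⟨a, b, hab⟩
    exact mod_four (N := M) (by omega) a b hab

/-- `p` divides `N` exactly once. -/
def chkOne (p N : ℕ) : Bool := (N % p).beq 0 && !((N % (p * p)).beq 0)

/-- `chkList ps N`: some `p` in `ps` divides `N` exactly once. -/
def chkList : List ℕ → ℕ → Bool
  | [], _ => false
  | p :: ps, N => bif chkOne p N then true else chkList ps N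

/-- The full test for one number. -/
def chk (ps : List ℕ) (N : ℕ) : Bool :=
  bif chkTwo N then true else
    bif chkList ps N then true else
      ((N % 27).beq 0 && !((N % 81).beq 0))

theorem chkList_spec : ∀ {ps : List ℕ} {N : ℕ} (_ : ∀ p ∈ ps, p.Prime ∧ p % 4 = 3)
    (_ : chkList ps N = true) (x y : ℕ), N ≠ x ^ 2 + y ^ 2
  | [], N, _, h, _, _ => by simp [chkList] at h
  | p :: ps, N, hps, h, x, y => by
    unfold chkList at h
    cases hc : chkOne p N with
    | true =>
      unfold chkOne at hc
      simp only [Bool.and_eq_true, Nat.beq_eq, Bool.not_eq_true', ← Bool.not_eq_true] at hc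
      obtain ⟨hp, hp4⟩ := hps p (by simp)
      refine not_sum_of_exact (e := 1) hp hp4 (by decide) ?_ ?_ x y
      · simpa using Nat.dvd_of_mod_eq_zero hc.1
      · intro hd
        apply hc.2
        apply Nat.mod_eq_zero_of_dvd
        have : p ^ (1 + 1) = p * p := by ring
        rwa [this] at hd
    | false =>
      rw [hc] at h
      exact chkList_spec (fun q hq => hps q (by simp [hq])) h x y

theorem chk_spec {ps : List ℕ} {N : ℕ} (hps : ∀ p ∈ ps, p.Prime ∧ p % 4 = 3)
    (h : chk ps N = true) (x y : ℕ) : N ≠ x ^ 2 + y ^ 2 := by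
  unfold chk at h
  cases h2 : chkTwo N with
  | true => exact chkTwo_spec h2 x y
  | false =>
    rw [h2] at h
    cases h3 : chkList ps N with
    | true => exact chkList_spec hps h3 x y
    | false =>
      rw [h3] at h
      simp only [cond_false, Bool.and_eq_true, Nat.beq_eq, Bool.not_eq_true',
        ← Bool.not_eq_true] at h
      refine not_sum_of_exact (p := 3) (e := 3) (by norm_num) (by norm_num) (by decide) ?_ ?_ x y
      · exact Nat.dvd_of_mod_eq_zero (by simpa using h.1)
      · intro hd
        exact h.2 (by simpa using Nat.mod_eq_zero_of_dvd hd)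

/-- `row ps n a l`: every `b` in the list `l` satisfies: `a + b > n` or `n - a - b` passes the test. -/
def row (ps : List ℕ) (m : ℕ) : List ℕ → Bool
  | [] => true
  | b :: l => bif chk ps (m - b) then row ps m l else false

/-- all rows -/
def rows (ps : List ℕ) (n : ℕ) : List ℕ → Bool
  | [] => true
  | a :: l => bif row ps (n - a) (a :: l) then rows ps n l else false

theorem row_spec : ∀ {ps : List ℕ} {m : ℕ} {l : List ℕ} (_ : row ps m l = true) {b : ℕ}
    (_ : b ∈ l), chk ps (m - b) = true
  | _, _, [], _, _, hb => by simp at hb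
  | ps, m, c :: l, h, b, hb => by
    unfold row at h
    cases hc : chk ps (m - c) with
    | false => rw [hc] at h; simp at h
    | true =>
      rw [hc] at h
      rcases List.mem_cons.1 hb with rfl | hb
      · exact hc
      · exact row_spec h hb

theorem rows_spec : ∀ {ps : List ℕ} {n : ℕ} {l : List ℕ} (_ : rows ps n l = true) {a b : ℕ}
    (_ : a ∈ l) (_ : b ∈ l), chk ps (n - a - b) = true
  | _, _, [], _, _, _, ha, _ => by simp at ha
  | ps, n, c :: l, h, a, b, ha, hb => by
    unfold rows at h
    cases hc : row ps (n - c) (c :: l) with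
    | false => rw [hc] at h; simp at h
    | true =>
      rw [hc] at h
      rcases List.mem_cons.1 ha with rfl | ha'
      · exact row_spec hc hb
      · rcases List.mem_cons.1 hb with rfl | hb'
        · rw [Nat.sub_right_comm]
          exact row_spec hc ha
        · exact rows_spec h ha' hb'

/-- `tab k c l`: the list `l` continues the sequence of central binomial coefficients, the first
entry of `l` having index `k + 1` and the previous value being `c`. -/
def tab : ℕ → ℕ → List ℕ → Bool
  | _, _, [] => true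
  | k, c, d :: l => bif ((k + 1) * d).beq (2 * (2 * k + 1) * c) then tab (k + 1) d l else false

theorem tab_get : ∀ {k c : ℕ} {l : List ℕ} (_ : c = Nat.centralBinom k) (_ : tab k c l = true)
    {i : ℕ} (_ : i < l.length), l[i]? = some (Nat.centralBinom (k + 1 + i))
  | k, c, [], _, _, i, h2 => by simp at h2
  | k, c, d :: l, hc, h, i, h2 => by
    unfold tab at h
    cases hd : ((k + 1) * d).beq (2 * (2 * k + 1) * c) with
    | false => rw [hd] at h; simp at h
    | true =>
      rw [hd] at h
      have hd' : (k + 1) * d = 2 * (2 * k + 1) * c := by simpa [Nat.beq_eq] using hd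
      have hdc : d = Nat.centralBinom (k + 1) := by
        have := Nat.succ_mul_centralBinom_succ k
        rw [hc, ← this] at hd'
        exact Nat.eq_of_mul_eq_mul_left (Nat.succ_pos k) hd'
      cases i with
      | zero => simp [hdc]
      | succ i =>
        have := tab_get hdc h (i := i) (by simpa using h2)
        simp only [List.getElem?_cons_succ]
        rw [this]
        congr 2
        omega

end Pool.Agent.Helper60.CentralBinom
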